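import Pool.Agent.H20.MT.Stmts
import Pool.Agent.H20.MT.Rho

/-!
# Project MTA, module LARGE: prime sums with primitive characters of large conductor
-/

set_option autoImplicit false

namespace MTA
open Finset

theorem large_hyper (N : ℕ) (F : ℕ → ℕ → ℂ) :
    ∑ n ∈ Icc 1 N, ∑ d ∈ n.divisors, F d (n / d) = ∑ d ∈ Icc 1 N, ∑ m ∈ Icc 1 (N / d), F d m := by
  rw [Finset.sum_sigma', Finset.sum_sigma']
  refine Finset.sum_bij' (fun x _ => (⟨x.2, x.1 / x.2⟩ : (_ : ℕ) × ℕ))
    (fun y _ => (⟨y.1 * y.2, y.1⟩ : (_ : ℕ) × ℕ)) ?_ ?_ ?_ ?_ ?_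
  · rintro ⟨n, d⟩ h
    simp only [Finset.mem_sigma, Finset.mem_Icc, Nat.mem_divisors] at h ⊢
    obtain ⟨⟨h1, h2⟩, h3, h4⟩ := h
    have hd : 0 < d := Nat.pos_of_dvd_of_pos h3 h1
    refine ⟨⟨hd, (Nat.le_of_dvd h1 h3).trans h2⟩, ?_, Nat.div_le_div_right h2⟩
    exact Nat.div_pos (Nat.le_of_dvd h1 h3) hd
  · rintro ⟨d, m⟩ h
    simp only [Finset.mem_sigma, Finset.mem_Icc, Nat.mem_divisors] at h ⊢
    obtain ⟨⟨h1, h2⟩, h3, h4⟩ := h
    have h5 : d * m ≤ N := by
      rw [mul_comm]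
      exact (Nat.le_div_iff_mul_le h1).1 h4
    have h6 : 0 < d * m := Nat.mul_pos h1 h3
    exact ⟨⟨h6, h5⟩, Dvd.intro _ rfl, h6.ne'⟩
  · rintro ⟨n, d⟩ h
    simp only [Finset.mem_sigma, Finset.mem_Icc, Nat.mem_divisors] at h ⊢
    obtain ⟨⟨h1, h2⟩, h3, h4⟩ := h
    rw [Nat.mul_div_cancel' h3]
  · rintro ⟨d, m⟩ h
    simp only [Finset.mem_sigma, Finset.mem_Icc, Nat.mem_divisors] at h ⊢
    obtain ⟨⟨h1, h2⟩, h3, h4⟩ := h
    rw [Nat.mul_div_cancel_left _ h1]
  · rintro ⟨n, d⟩ _
    rfl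

/-- type I sums -/
theorem large_typeI {r : ℕ} (χ : DirichletCharacter ℂ r) (X D B E : ℝ) (c : ℕ → ℂ) (g : ℕ → ℂ)
    (hD : 0 ≤ D) (hB : 0 ≤ B) (hE : 0 ≤ E) (hc : ∀ k : ℕ, 1 ≤ k → (k : ℝ) ≤ D → ‖c k‖ ≤ B)
    (hg : ∀ d : ℕ, 1 ≤ d →
      ‖∑ m ∈ Icc 1 ⌊8 * X / d⌋₊, χ m * g m * (rho (Real.log (d * m / X)) : ℂ)‖ ≤ E) :
    ‖∑ n ∈ Icc 1 ⌊8 * X⌋₊, (∑ d ∈ n.divisors, if (d : ℝ) ≤ D then c d * g (n / d) else 0) *
      (χ n * (rho (Real.log (n / X)) : ℂ))‖ ≤ D * B * E := by
  classical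
  have h1 : ∑ n ∈ Icc 1 ⌊8 * X⌋₊, (∑ d ∈ n.divisors, if (d : ℝ) ≤ D then c d * g (n / d) else 0) *
      (χ n * (rho (Real.log (n / X)) : ℂ)) =
      ∑ d ∈ Icc 1 ⌊8 * X⌋₊, if (d : ℝ) ≤ D then c d * (χ d *
        ∑ m ∈ Icc 1 ⌊8 * X / d⌋₊, χ m * g m * (rho (Real.log (d * m / X)) : ℂ)) else 0 := by
    have h2 := large_hyper ⌊8 * X⌋₊ (fun d m => (if (d : ℝ) ≤ D then c d * g m else 0) *
      (χ (d * m : ℕ) * (rho (Real.log (d * m / X)) : ℂ)))
    calc ∑ n ∈ Icc 1 ⌊8 * X⌋₊, (∑ d ∈ n.divisors, if (d : ℝ) ≤ D then c d * g (n / d) else 0) *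
        (χ n * (rho (Real.log (n / X)) : ℂ))
        = ∑ n ∈ Icc 1 ⌊8 * X⌋₊, ∑ d ∈ n.divisors, (if (d : ℝ) ≤ D then c d * g (n / d) else 0) *
          (χ (d * (n / d) : ℕ) * (rho (Real.log ((d : ℝ) * ((n / d : ℕ) : ℝ) / X)) : ℂ)) := by
          refine Finset.sum_congr rfl (fun n _ => ?_)
          rw [Finset.sum_mul]
          refine Finset.sum_congr rfl (fun d hd => ?_)
          have h3 : d * (n / d) = n := Nat.mul_div_cancel' (Nat.dvd_of_mem_divisors hd)
          rw [← Nat.cast_mul, h3]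
      _ = _ := h2
      _ = _ := by
          refine Finset.sum_congr rfl (fun d _ => ?_)
          rw [← Nat.floor_div_natCast]
          split_ifs with h
          · rw [Finset.mul_sum, Finset.mul_sum]
            refine Finset.sum_congr rfl (fun m _ => ?_)
            push_cast
            rw [map_mul]
            ring
          · simp
  rw [h1]
  refine (norm_sum_le _ _).trans ?_
  have h3 : ∀ d ∈ Icc 1 ⌊8 * X⌋₊, ‖(if (d : ℝ) ≤ D then c d * (χ d *
        ∑ m ∈ Icc 1 ⌊8 * X / d⌋₊, χ m * g m * (rho (Real.log (d * m / X)) : ℂ)) else 0)‖ ≤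
        if d ∈ Icc 1 ⌊D⌋₊ then B * E else 0 := by
    intro d hd
    rw [Finset.mem_Icc] at hd
    by_cases h : (d : ℝ) ≤ D
    · rw [if_pos h, if_pos (by rw [Finset.mem_Icc]; exact ⟨hd.1, Nat.le_floor h⟩), norm_mul,
        norm_mul]
      have h4 := hc d hd.1 h
      have h5 := hg d hd.1
      have h6 : ‖χ d‖ ≤ 1 := DirichletCharacter.norm_le_one χ _
      have h7 : ‖χ d‖ * ‖∑ m ∈ Icc 1 ⌊8 * X / d⌋₊, χ m * g m *
          (rho (Real.log (d * m / X)) : ℂ)‖ ≤ 1 * E :=
        mul_le_mul h6 h5 (norm_nonneg _) zero_le_one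
      rw [one_mul] at h7
      exact mul_le_mul h4 h7 (by positivity) hB
    · rw [if_neg h, norm_zero]
      split_ifs
      · positivity
      · exact le_rfl
  refine (Finset.sum_le_sum h3).trans ?_
  rw [← Finset.sum_filter, Finset.sum_const, nsmul_eq_mul]
  have h8 : (((Icc 1 ⌊8 * X⌋₊).filter (fun d => d ∈ Icc 1 ⌊D⌋₊)).card : ℝ) ≤ D := by
    have h9 : ((Icc 1 ⌊8 * X⌋₊).filter (fun d => d ∈ Icc 1 ⌊D⌋₊)) ⊆ Icc 1 ⌊D⌋₊ := by
      intro d hd
      exact (Finset.mem_filter.1 hd).2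
    have h10 := Finset.card_le_card h9
    rw [Nat.card_Icc, Nat.add_sub_cancel] at h10
    exact (Nat.cast_le.2 h10).trans (Nat.floor_le hD)
  calc (((Icc 1 ⌊8 * X⌋₊).filter (fun d => d ∈ Icc 1 ⌊D⌋₊)).card : ℝ) * (B * E)
      ≤ D * (B * E) := mul_le_mul_of_nonneg_right h8 (by positivity)
    _ = D * B * E := by ring

/-- the bilinear part -/
theorem large_typeII {r : ℕ} (χ : DirichletCharacter ℂ r) (X : ℝ) (a b : ℕ → ℂ) :
    ∑ n ∈ Icc 1 ⌊8 * X⌋₊, (∑ d ∈ n.divisors, a d * b (n / d)) *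
      (χ n * (rho (Real.log (n / X)) : ℂ)) = TII X a b χ := by
  have h2 := large_hyper ⌊8 * X⌋₊ (fun d m => a d * b m * χ (d * m : ℕ) *
    (rho (Real.log (d * m / X)) : ℂ))
  unfold TII
  calc ∑ n ∈ Icc 1 ⌊8 * X⌋₊, (∑ d ∈ n.divisors, a d * b (n / d)) *
      (χ n * (rho (Real.log (n / X)) : ℂ))
      = ∑ n ∈ Icc 1 ⌊8 * X⌋₊, ∑ d ∈ n.divisors, a d * b (n / d) * χ (d * (n / d) : ℕ) *
        (rho (Real.log ((d : ℝ) * ((n / d : ℕ) : ℝ) / X)) : ℂ) := by
        refine Finset.sum_congr rfl (fun n _ => ?_)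
        rw [Finset.sum_mul]
        refine Finset.sum_congr rfl (fun d hd => ?_)
        have h3 : d * (n / d) = n := Nat.mul_div_cancel' (Nat.dvd_of_mem_divisors hd)
        rw [← Nat.cast_mul, h3]
        ring
    _ = _ := h2
    _ = _ := by
        refine Finset.sum_congr rfl (fun d _ => ?_)
        rw [← Nat.floor_div_natCast]

open ArithmeticFunction in
theorem large_coef (U V : ℝ) (k : ℕ) (hk : 1 ≤ k) :
    |∑ d ∈ k.divisors, if (d : ℝ) ≤ V ∧ ((k / d : ℕ) : ℝ) ≤ U then
      (ArithmeticFunction.moebius d : ℝ) * ArithmeticFunction.vonMangoldt (k / d) else 0| ≤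
      Real.log k := by
  have hl : Real.log k = ∑ d ∈ k.divisors, ArithmeticFunction.vonMangoldt (k / d) := by
    rw [Nat.sum_div_divisors k (fun d => ArithmeticFunction.vonMangoldt d)]
    exact ArithmeticFunction.vonMangoldt_sum.symm
  rw [hl]
  refine (Finset.abs_sum_le_sum_abs _ _).trans (Finset.sum_le_sum (fun d _ => ?_))
  have h0 : 0 ≤ ArithmeticFunction.vonMangoldt (k / d) := ArithmeticFunction.vonMangoldt_nonneg
  split_ifs
  · rw [abs_mul, abs_of_nonneg h0]
    have h1 : |((ArithmeticFunction.moebius d : ℤ) : ℝ)| ≤ 1 := by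
      have := ArithmeticFunction.abs_moebius_le_one (n := d)
      exact_mod_cast this
    calc _ ≤ 1 * ArithmeticFunction.vonMangoldt (k / d) := mul_le_mul_of_nonneg_right h1 h0
      _ = _ := one_mul _
  · rw [abs_zero]
    exact h0

/-- the decomposition of the prime sum -/
theorem large_decomp (hV : S_VAU) {r : ℕ} (χ : DirichletCharacter ℂ r) (X : ℝ) (hX : 32 ≤ X) :
    psiR X χ =
      (∑ n ∈ Icc 1 ⌊8 * X⌋₊, (∑ d ∈ n.divisors, if (d : ℝ) ≤ X ^ (1 / 5 : ℝ) then
        ((ArithmeticFunction.moebius d : ℝ) : ℂ) * ((Real.log (n / d : ℕ) : ℝ) : ℂ) else 0) *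
        (χ n * (rho (Real.log (n / X)) : ℂ))) -
      (∑ n ∈ Icc 1 ⌊8 * X⌋₊, (∑ k ∈ n.divisors,
        if (k : ℝ) ≤ X ^ (1 / 5 : ℝ) * X ^ (1 / 5 : ℝ) then
        (((∑ d ∈ k.divisors, if (d : ℝ) ≤ X ^ (1 / 5 : ℝ) ∧ ((k / d : ℕ) : ℝ) ≤ X ^ (1 / 5 : ℝ) then
          (ArithmeticFunction.moebius d : ℝ) * ArithmeticFunction.vonMangoldt (k / d) else 0 : ℝ))
            : ℂ) * (1 : ℂ) else 0) *
        (χ n * (rho (Real.log (n / X)) : ℂ))) +
      TII X (fun m => if X ^ (1 / 5 : ℝ) < (m : ℝ) then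
        ((∑ d ∈ m.divisors, if X ^ (1 / 5 : ℝ) < (d : ℝ) then
          (ArithmeticFunction.moebius d : ℝ) else 0 : ℝ) : ℂ) else 0)
        (fun n => if X ^ (1 / 5 : ℝ) < (n : ℝ) then
          ((ArithmeticFunction.vonMangoldt n : ℝ) : ℂ) else 0) χ := by
  rw [← large_typeII, ← Finset.sum_sub_distrib, ← Finset.sum_add_distrib]
  unfold psiR
  refine Finset.sum_congr rfl (fun n hn => ?_)
  rw [Finset.mem_Icc] at hn
  have hX0 : 0 < X := by linarith
  have hU1 : 1 ≤ X ^ (1 / 5 : ℝ) := Real.one_le_rpow (by linarith) (by norm_num)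
  by_cases hnU : X ^ (1 / 5 : ℝ) < (n : ℝ)
  · have h1 := hV (X ^ (1 / 5 : ℝ)) (X ^ (1 / 5 : ℝ)) n hU1 hU1 hn.1 hnU
    have h2 : ((ArithmeticFunction.vonMangoldt n : ℝ) : ℂ) =
        (∑ d ∈ n.divisors, if (d : ℝ) ≤ X ^ (1 / 5 : ℝ) then
        ((ArithmeticFunction.moebius d : ℝ) : ℂ) * ((Real.log (n / d : ℕ) : ℝ) : ℂ) else 0) -
        (∑ k ∈ n.divisors, if (k : ℝ) ≤ X ^ (1 / 5 : ℝ) * X ^ (1 / 5 : ℝ) then
        (((∑ d ∈ k.divisors, if (d : ℝ) ≤ X ^ (1 / 5 : ℝ) ∧ ((k / d : ℕ) : ℝ) ≤ X ^ (1 / 5 : ℝ) then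
          (ArithmeticFunction.moebius d : ℝ) * ArithmeticFunction.vonMangoldt (k / d) else 0 : ℝ))
            : ℂ) * (1 : ℂ) else 0) +
        ∑ m ∈ n.divisors, (if X ^ (1 / 5 : ℝ) < (m : ℝ) then
        ((∑ d ∈ m.divisors, if X ^ (1 / 5 : ℝ) < (d : ℝ) then
          (ArithmeticFunction.moebius d : ℝ) else 0 : ℝ) : ℂ) else 0) *
          (if X ^ (1 / 5 : ℝ) < ((n / m : ℕ) : ℝ) then
          ((ArithmeticFunction.vonMangoldt (n / m) : ℝ) : ℂ) else 0) := by
      have h3 := congrArg (fun z : ℝ => (z : ℂ)) h1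
      rw [h3, Complex.ofReal_add, Complex.ofReal_sub]
      congr 1
      · congr 1
        · rw [Complex.ofReal_sum]
          refine Finset.sum_congr rfl (fun d _ => ?_)
          split_ifs
          · rw [Complex.ofReal_mul]
          · rw [Complex.ofReal_zero]
        · rw [Complex.ofReal_sum]
          refine Finset.sum_congr rfl (fun d _ => ?_)
          split_ifs
          · rw [mul_one]
          · rw [Complex.ofReal_zero]
      · rw [Complex.ofReal_sum]
        refine Finset.sum_congr rfl (fun m _ => ?_)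
        by_cases ha : X ^ (1 / 5 : ℝ) < (m : ℝ)
        · by_cases hb : X ^ (1 / 5 : ℝ) < ((n / m : ℕ) : ℝ)
          · rw [if_pos ⟨ha, hb⟩, if_pos ha, if_pos hb, Complex.ofReal_mul]
          · rw [if_neg (fun h => hb h.2), if_neg hb, mul_zero, Complex.ofReal_zero]
        · rw [if_neg (fun h => ha h.1), if_neg ha, zero_mul, Complex.ofReal_zero]
    rw [h2]
    ring
  · have hz : rho (Real.log (n / X)) = 0 := by
      apply rho_zero
      rw [not_lt] at hnU
      have hn0 : (0 : ℝ) < n := by exact_mod_cast hn.1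
      have h4 : Real.log (n / X) ≤ -(4 / 5) * Real.log X := by
        rw [Real.log_div hn0.ne' hX0.ne']
        have h5 := Real.log_le_log hn0 hnU
        rw [Real.log_rpow hX0] at h5
        linarith
      have h6 : (5 / 2 : ℝ) ≤ Real.log X := by
        have h7 : Real.log 32 ≤ Real.log X := Real.log_le_log (by norm_num) hX
        have h8 : Real.log 32 = 5 * Real.log 2 := by
          rw [show (32 : ℝ) = 2 ^ 5 by norm_num, Real.log_pow]
          norm_num
        have := Real.log_two_gt_d9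
        linarith
      rw [abs_of_nonpos (by linarith)]
      linarith
    rw [hz]
    simp

theorem large_prs_le (r : ℕ) (hr : 1 ≤ r) (F G : DirichletCharacter ℂ r → ℝ) (c : ℝ) (hc : 0 ≤ c)
    (h : ∀ χ, χ.IsPrimitive → F χ ≤ c + G χ) :
    prs r F ≤ r.totient * c + prs r G := by
  classical
  unfold prs
  have h1 : ∀ χ : DirichletCharacter ℂ r, (if χ.IsPrimitive then F χ else 0) ≤
      c + (if χ.IsPrimitive then G χ else 0) := by
    intro χ
    split_ifs with hχ
    · exact h χ hχ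
    · linarith
  refine (Finset.sum_le_sum (fun χ _ => h1 χ)).trans ?_
  rw [Finset.sum_add_distrib, Finset.sum_const, nsmul_eq_mul]
  have h2 : (Finset.univ : Finset (DirichletCharacter ℂ r)).card = r.totient := by
    have hr0 : NeZero r := ⟨by omega⟩
    rw [← DirichletCharacter.card_eq_totient_of_hasEnoughRootsOfUnity ℂ r,
      Nat.card_eq_fintype_card, Finset.card_univ]
  rw [h2]

theorem large_log_pow {X : ℝ} (hX : 32 ≤ X) {a b : ℕ} (h : a ≤ b) :
    Real.log X ^ a ≤ Real.log X ^ b := by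
  refine pow_le_pow_right₀ ?_ h
  have h7 : Real.log 32 ≤ Real.log X := Real.log_le_log (by norm_num) hX
  have h8 : Real.log 32 = 5 * Real.log 2 := by
    rw [show (32 : ℝ) = 2 ^ 5 by norm_num, Real.log_pow]
    norm_num
  have := Real.log_two_gt_d9
  linarith

theorem LARGE (h1 : S_VAU) (h2 : S_TI) (h3 : S_TII) : S_LARGE := by
  classical
  obtain ⟨C1, hC1, hTI⟩ := h2
  obtain ⟨C2, k, hC2, hTII⟩ := h3
  refine ⟨2 * C1 + C2, k + 2, by positivity, fun X R1 hX hR1 => ?_⟩
  have hlog : 0 < Real.log X := Real.log_pos (by linarith)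
  have hX0 : 0 < X := by linarith
  by_cases hX32 : X < 32
  · -- empty sum
    have hemp : (Icc 1 ⌊X ^ (1 / 5 : ℝ)⌋₊).filter (fun r : ℕ => R1 < r) = ∅ := by
      rw [Finset.filter_eq_empty_iff]
      intro r hr hR
      rw [Finset.mem_Icc] at hr
      have h4 : (r : ℝ) ≤ X ^ (1 / 5 : ℝ) := (Nat.le_floor_iff (by positivity)).1 hr.2
      have h5 : X ^ (1 / 5 : ℝ) < 2 := by
        calc X ^ (1 / 5 : ℝ) < (32 : ℝ) ^ (1 / 5 : ℝ) :=
              Real.rpow_lt_rpow hX0.le hX32 (by norm_num)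
          _ = 2 := by
              rw [show (32 : ℝ) = 2 ^ (5 : ℝ) by norm_num, ← Real.rpow_mul (by norm_num)]
              norm_num
      have h6 : (r : ℝ) < 2 := by linarith
      have h7 : r < 2 := by exact_mod_cast h6
      have h8 : r = 1 := by omega
      rw [h8] at hR
      norm_num at hR
      linarith
    rw [hemp, Finset.sum_empty]
    positivity
  · rw [not_lt] at hX32
    set u : ℝ := X ^ (1 / 5 : ℝ) with hu
    have hu0 : 0 < u := by positivity
    set a : ℕ → ℂ := fun m => if u < (m : ℝ) then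
        ((∑ d ∈ m.divisors, if u < (d : ℝ) then
          (ArithmeticFunction.moebius d : ℝ) else 0 : ℝ) : ℂ) else 0 with ha
    set b : ℕ → ℂ := fun n => if u < (n : ℝ) then
          ((ArithmeticFunction.vonMangoldt n : ℝ) : ℂ) else 0 with hb
    have hLX : 1 ≤ Real.log X := by
      have := large_log_pow hX32 (Nat.zero_le 1)
      simpa using this
    have hkey : ∀ r : ℕ, 1 ≤ r → R1 < (r : ℝ) → ∀ χ : DirichletCharacter ℂ r, χ.IsPrimitive →
        ‖psiR X χ‖ ≤ 2 * C1 * r * (u * u) * Real.log X ^ 2 + ‖TII X a b χ‖ := by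
      intro r hr hR χ hχ
      have hr0 : NeZero r := ⟨by omega⟩
      have hχ1 : χ ≠ 1 := by
        intro h
        rw [h] at hχ
        have h4 : (1 : DirichletCharacter ℂ r).conductor = r := hχ
        rw [DirichletCharacter.conductor_one] at h4
        rw [← h4] at hR
        norm_num at hR
        linarith
      have hI1 := large_typeI χ X u 1 (C1 * r * Real.log X)
        (fun d => ((ArithmeticFunction.moebius d : ℝ) : ℂ)) (fun m => ((Real.log m : ℝ) : ℂ))
        hu0.le zero_le_one (by positivity) (fun k _ _ => by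
          rw [Complex.norm_real, Real.norm_eq_abs]
          have := ArithmeticFunction.abs_moebius_le_one (n := k)
          exact_mod_cast this)
        (fun d hd => (hTI X r χ d hX hχ1 hd).2)
      have hI2 := large_typeI χ X (u * u) (Real.log X) (C1 * r)
        (fun k => ((∑ d ∈ k.divisors, if (d : ℝ) ≤ u ∧ ((k / d : ℕ) : ℝ) ≤ u then
          (ArithmeticFunction.moebius d : ℝ) * ArithmeticFunction.vonMangoldt (k / d) else 0 : ℝ)
            : ℂ)) (fun _ => (1 : ℂ)) (by positivity) hlog.le (by positivity) (fun k hk hk2 => by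
          rw [Complex.norm_real, Real.norm_eq_abs]
          refine (large_coef u u k hk).trans ?_
          refine Real.log_le_log (by exact_mod_cast hk) (hk2.trans ?_)
          rw [hu, ← Real.rpow_add hX0]
          calc X ^ ((1 / 5 : ℝ) + 1 / 5) ≤ X ^ (1 : ℝ) :=
                Real.rpow_le_rpow_of_exponent_le (by linarith) (by norm_num)
            _ = X := Real.rpow_one X)
        (fun d hd => by
          have := (hTI X r χ d hX hχ1 hd).1
          simpa using this)
      rw [large_decomp h1 χ X hX32]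
      refine (norm_add_le _ _).trans (add_le_add ((norm_sub_le _ _).trans ?_) le_rfl)
      refine (add_le_add hI1 hI2).trans ?_
      have hu1 : 1 ≤ u := Real.one_le_rpow (by linarith) (by norm_num)
      have e1 : u * 1 * (C1 * r * Real.log X) ≤ C1 * r * (u * u) * Real.log X ^ 2 := by
        have e2 : Real.log X ≤ Real.log X ^ 2 := by nlinarith
        have e3 : u ≤ u * u := by nlinarith
        calc u * 1 * (C1 * r * Real.log X) = C1 * r * (u * Real.log X) := by ring
          _ ≤ C1 * r * ((u * u) * Real.log X ^ 2) := by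
              refine mul_le_mul_of_nonneg_left ?_ (by positivity)
              exact mul_le_mul e3 e2 hlog.le (by positivity)
          _ = _ := by ring
      have e4 : u * u * Real.log X * (C1 * r) ≤ C1 * r * (u * u) * Real.log X ^ 2 := by
        have e2 : Real.log X ≤ Real.log X ^ 2 := by nlinarith
        calc u * u * Real.log X * (C1 * r) = C1 * r * (u * u) * Real.log X := by ring
          _ ≤ _ := mul_le_mul_of_nonneg_left e2 (by positivity)
      linarith
    have hII := hTII X R1 a b hX hR1 (fun m => by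
        rw [ha]
        simp only
        split_ifs
        · rw [Complex.norm_real, Real.norm_eq_abs]
          refine (Finset.abs_sum_le_sum_abs _ _).trans ?_
          calc ∑ d ∈ m.divisors, |if u < (d : ℝ) then ((ArithmeticFunction.moebius d : ℤ) : ℝ)
                else 0| ≤ ∑ d ∈ m.divisors, (1 : ℝ) := by
                refine Finset.sum_le_sum (fun d _ => ?_)
                split_ifs
                · have := ArithmeticFunction.abs_moebius_le_one (n := d)
                  exact_mod_cast this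
                · rw [abs_zero]
                  exact zero_le_one
            _ = m.divisors.card := by simp
        · rw [norm_zero]
          positivity)
      (fun n hn => by
        rw [hb]
        simp only
        split_ifs
        · rw [Complex.norm_real, Real.norm_eq_abs,
            abs_of_nonneg ArithmeticFunction.vonMangoldt_nonneg]
          exact ArithmeticFunction.vonMangoldt_le_log
        · rw [norm_zero]
          exact Real.log_natCast_nonneg n)
      (fun m hm => by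
        rw [ha]
        simp only
        rw [if_neg (not_lt.2 hm)])
      (fun n hn => by
        rw [hb]
        simp only
        rw [if_neg (not_lt.2 hn)])
    have hsum : ∑ r ∈ (Icc 1 ⌊u⌋₊).filter (fun r : ℕ => R1 < r),
        1 / (r.totient : ℝ) * prs r (fun χ => ‖psiR X χ‖) ≤
        ∑ r ∈ (Icc 1 ⌊u⌋₊).filter (fun r : ℕ => R1 < r),
          (2 * C1 * u * (u * u) * Real.log X ^ 2 +
            1 / (r.totient : ℝ) * prs r (fun χ => ‖TII X a b χ‖)) := by
      refine Finset.sum_le_sum (fun r hr => ?_)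
      rw [Finset.mem_filter, Finset.mem_Icc] at hr
      obtain ⟨⟨hr1, hr2⟩, hr3⟩ := hr
      have hru : (r : ℝ) ≤ u := (Nat.le_floor_iff hu0.le).1 hr2
      have htot : (0 : ℝ) < r.totient := by exact_mod_cast Nat.totient_pos.2 hr1
      have h4 := large_prs_le r hr1 (fun χ => ‖psiR X χ‖) (fun χ => ‖TII X a b χ‖)
        (2 * C1 * r * (u * u) * Real.log X ^ 2) (by positivity) (hkey r hr1 hr3)
      calc 1 / (r.totient : ℝ) * prs r (fun χ => ‖psiR X χ‖)
          ≤ 1 / (r.totient : ℝ) * (r.totient * (2 * C1 * r * (u * u) * Real.log X ^ 2) +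
            prs r (fun χ => ‖TII X a b χ‖)) := mul_le_mul_of_nonneg_left h4 (by positivity)
        _ = 2 * C1 * r * (u * u) * Real.log X ^ 2 +
            1 / (r.totient : ℝ) * prs r (fun χ => ‖TII X a b χ‖) := by
            field_simp
        _ ≤ _ := by
            refine add_le_add ?_ le_rfl
            have : 2 * C1 * r * (u * u) ≤ 2 * C1 * u * (u * u) := by
              refine mul_le_mul_of_nonneg_right ?_ (by positivity)
              exact mul_le_mul_of_nonneg_left hru (by positivity)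
            exact mul_le_mul_of_nonneg_right this (by positivity)
    refine hsum.trans ?_
    rw [Finset.sum_add_distrib, Finset.sum_const, nsmul_eq_mul]
    have hcard : ((((Icc 1 ⌊u⌋₊).filter (fun r : ℕ => R1 < r)).card : ℕ) : ℝ) ≤ u := by
      have h9 := Finset.card_filter_le (Icc 1 ⌊u⌋₊) (fun r : ℕ => R1 < r)
      rw [Nat.card_Icc, Nat.add_sub_cancel] at h9
      exact (Nat.cast_le.2 h9).trans (Nat.floor_le hu0.le)
    have hu4 : u * (u * (u * u)) ≤ X ^ (19 / 20 : ℝ) := by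
      have : u * (u * (u * u)) = X ^ (4 / 5 : ℝ) := by
        rw [hu, ← Real.rpow_add hX0, ← Real.rpow_add hX0, ← Real.rpow_add hX0]
        norm_num
      rw [this]
      exact Real.rpow_le_rpow_of_exponent_le (by linarith) (by norm_num)
    have hX19 : 0 < X ^ (19 / 20 : ℝ) := by positivity
    have hXR : 0 ≤ X / R1 := by positivity
    have f1 : ((((Icc 1 ⌊u⌋₊).filter (fun r : ℕ => R1 < r)).card : ℕ) : ℝ) *
        (2 * C1 * u * (u * u) * Real.log X ^ 2) ≤
        2 * C1 * Real.log X ^ (k + 2) * (X / R1 + X ^ (19 / 20 : ℝ)) := by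
      calc ((((Icc 1 ⌊u⌋₊).filter (fun r : ℕ => R1 < r)).card : ℕ) : ℝ) *
          (2 * C1 * u * (u * u) * Real.log X ^ 2)
          ≤ u * (2 * C1 * u * (u * u) * Real.log X ^ 2) :=
            mul_le_mul_of_nonneg_right hcard (by positivity)
        _ = 2 * C1 * Real.log X ^ 2 * (u * (u * (u * u))) := by ring
        _ ≤ 2 * C1 * Real.log X ^ (k + 2) * (X / R1 + X ^ (19 / 20 : ℝ)) := by
            refine mul_le_mul ?_ (by linarith) (by positivity) (by positivity)
            exact mul_le_mul_of_nonneg_left (large_log_pow hX32 (by omega)) (by positivity)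
    have f2 : C2 * Real.log X ^ k * (X / R1 + X ^ (19 / 20 : ℝ)) ≤
        C2 * Real.log X ^ (k + 2) * (X / R1 + X ^ (19 / 20 : ℝ)) := by
      refine mul_le_mul_of_nonneg_right ?_ (by positivity)
      exact mul_le_mul_of_nonneg_left (large_log_pow hX32 (by omega)) hC2.le
    calc _ ≤ 2 * C1 * Real.log X ^ (k + 2) * (X / R1 + X ^ (19 / 20 : ℝ)) +
          C2 * Real.log X ^ (k + 2) * (X / R1 + X ^ (19 / 20 : ℝ)) :=
          add_le_add f1 (hII.trans f2)
      _ = _ := by ring

end MTA
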