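import Pool.Agent.H20.MT.Stmts
import Pool.Agent.H20.MT.Rho

/-!
# Project MTA, module SW: Siegel-Walfisz for good `x`
-/

set_option autoImplicit false

namespace MTA
open Finset MeasureTheory Filter

theorem sw_log_pow (M : ℕ) : ∃ C : ℝ, 0 < C ∧ ∀ u : ℝ,
    (Real.log (|2 * Real.pi * u| + 3)) ^ M ≤ C * (1 + u ^ 2) ^ (1 / 4 : ℝ) := by
  refine ⟨(2 * (M + 1)) ^ M * 4, by positivity, fun u => ?_⟩
  have hM : (0 : ℝ) < M + 1 := by positivity
  set y : ℝ := |2 * Real.pi * u| + 3 with hy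
  have hy1 : 1 ≤ y := by
    have := abs_nonneg (2 * Real.pi * u)
    linarith
  have hy0 : 0 < y := by linarith
  have h1 : Real.log y ≤ y ^ (1 / (2 * (M + 1)) : ℝ) / (1 / (2 * (M + 1)) : ℝ) :=
    Real.log_le_rpow_div hy0.le (by positivity)
  have h2 : Real.log y ≤ 2 * (M + 1) * y ^ (1 / (2 * (M + 1)) : ℝ) := by
    have : y ^ (1 / (2 * (M + 1)) : ℝ) / (1 / (2 * (M + 1)) : ℝ) =
        2 * (M + 1) * y ^ (1 / (2 * (M + 1)) : ℝ) := by
      field_simp
    linarith
  have hl0 : 0 ≤ Real.log y := Real.log_nonneg hy1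
  have h3 : (Real.log y) ^ M ≤ (2 * (M + 1) * y ^ (1 / (2 * (M + 1)) : ℝ)) ^ M :=
    pow_le_pow_left₀ hl0 h2 M
  have h4 : (y ^ (1 / (2 * (M + 1)) : ℝ)) ^ M ≤ y ^ (1 / 2 : ℝ) := by
    rw [← Real.rpow_natCast, ← Real.rpow_mul hy0.le]
    refine Real.rpow_le_rpow_of_exponent_le hy1 ?_
    rw [div_mul_eq_mul_div, one_mul, div_le_div_iff₀ (by positivity) (by norm_num)]
    linarith
  have h5 : y ≤ 10 * (1 + u ^ 2) ^ (1 / 2 : ℝ) := by
    rw [← Real.sqrt_eq_rpow]
    have h6 : |u| ≤ Real.sqrt (1 + u ^ 2) := by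
      apply Real.le_sqrt_of_sq_le
      rw [sq_abs]; linarith
    have h7 : 1 ≤ Real.sqrt (1 + u ^ 2) := by
      apply Real.le_sqrt_of_sq_le
      nlinarith [sq_nonneg u]
    have h8 : |2 * Real.pi * u| ≤ 7 * |u| := by
      rw [abs_mul, abs_of_pos (by positivity : (0 : ℝ) < 2 * Real.pi)]
      have := Real.pi_lt_d2
      nlinarith [abs_nonneg u]
    linarith
  have h9 : y ^ (1 / 2 : ℝ) ≤ 4 * (1 + u ^ 2) ^ (1 / 4 : ℝ) := by
    calc y ^ (1 / 2 : ℝ) ≤ (10 * (1 + u ^ 2) ^ (1 / 2 : ℝ)) ^ (1 / 2 : ℝ) :=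
          Real.rpow_le_rpow hy0.le h5 (by norm_num)
      _ = (10 : ℝ) ^ (1 / 2 : ℝ) * (1 + u ^ 2) ^ (1 / 4 : ℝ) := by
          rw [Real.mul_rpow (by norm_num) (by positivity), ← Real.rpow_mul (by positivity)]
          norm_num
      _ ≤ 4 * (1 + u ^ 2) ^ (1 / 4 : ℝ) := by
          refine mul_le_mul_of_nonneg_right ?_ (by positivity)
          rw [← Real.sqrt_eq_rpow]
          exact Real.sqrt_le_iff.2 ⟨by norm_num, by norm_num⟩
  calc (Real.log y) ^ M ≤ (2 * (M + 1) * y ^ (1 / (2 * (M + 1)) : ℝ)) ^ M := h3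
    _ = (2 * (M + 1)) ^ M * (y ^ (1 / (2 * (M + 1)) : ℝ)) ^ M := mul_pow _ _ _
    _ ≤ (2 * (M + 1)) ^ M * (4 * (1 + u ^ 2) ^ (1 / 4 : ℝ)) :=
        mul_le_mul_of_nonneg_left (h4.trans h9) (by positivity)
    _ = _ := by ring

theorem sw_integrable : Integrable (fun u : ℝ => (1 + u ^ 2) ^ (-(3 / 4) : ℝ)) := by
  have h := integrable_rpow_neg_one_add_norm_sq (E := ℝ) (μ := volume) (r := 3 / 2)
    (by rw [Module.finrank_self]; norm_num)
  refine h.congr (Filter.Eventually.of_forall fun u => ?_)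
  show (1 + ‖u‖ ^ 2) ^ (-(3 / 2) / 2 : ℝ) = (1 + u ^ 2) ^ (-(3 / 4) : ℝ)
  rw [Real.norm_eq_abs, sq_abs]
  norm_num

theorem sw_int_g {g : ℝ → ℂ} {C : ℝ} (hg : Continuous g) (hb : ∀ u, ‖g u‖ ≤ C / (1 + u ^ 2)) :
    Integrable g := by
  refine Integrable.mono' (g := fun u => C * (1 + u ^ 2)⁻¹)
    (integrable_inv_one_add_sq.const_mul C) hg.aestronglyMeasurable
    (Filter.Eventually.of_forall fun u => ?_)
  rw [← div_eq_mul_inv]
  exact hb u

/-- coefficients -/
noncomputable def swf {r : ℕ} (χ : DirichletCharacter ℂ r) (k : ℕ) (n : ℕ) : ℂ :=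
  χ n * (ArithmeticFunction.vonMangoldt n : ℂ) * (Real.log n : ℂ) ^ k

theorem sw_norm_f {r : ℕ} (χ : DirichletCharacter ℂ r) (k n : ℕ) :
    ‖swf χ k n‖ ≤ Real.log n ^ (k + 1) := by
  unfold swf
  have h0 : 0 ≤ Real.log (n : ℝ) := Real.log_natCast_nonneg n
  rw [norm_mul, norm_mul, norm_pow, Complex.norm_real, Complex.norm_real, Real.norm_eq_abs,
    Real.norm_eq_abs, abs_of_nonneg h0, abs_of_nonneg ArithmeticFunction.vonMangoldt_nonneg]
  have h1 : ‖χ n‖ ≤ 1 := DirichletCharacter.norm_le_one χ _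
  have h2 : ArithmeticFunction.vonMangoldt n ≤ Real.log n := ArithmeticFunction.vonMangoldt_le_log
  have h3 : ‖χ n‖ * ArithmeticFunction.vonMangoldt n ≤ 1 * Real.log n :=
    mul_le_mul h1 h2 ArithmeticFunction.vonMangoldt_nonneg zero_le_one
  rw [one_mul] at h3
  calc ‖χ n‖ * ArithmeticFunction.vonMangoldt n * Real.log n ^ k ≤
      Real.log n * Real.log n ^ k := mul_le_mul_of_nonneg_right h3 (by positivity)
    _ = Real.log n ^ (k + 1) := by ring

theorem sw_summable {r : ℕ} (χ : DirichletCharacter ℂ r) (k : ℕ) {s : ℂ} (hs : 1 < s.re) :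
    LSeriesSummable (swf χ k) s := by
  set ε : ℝ := (s.re - 1) / 2 with hε
  have hε0 : 0 < ε := by rw [hε]; linarith
  refine LSeriesSummable_of_le_const_mul_rpow (x := 1 + ε) (by rw [hε]; linarith)
    ⟨(1 / (ε / (k + 1))) ^ (k + 1), fun n hn => ?_⟩
  have hn1 : (1 : ℝ) ≤ n := by exact_mod_cast Nat.one_le_iff_ne_zero.2 hn
  have hk : (0 : ℝ) < k + 1 := by positivity
  refine (sw_norm_f χ k n).trans ?_
  have h1 : Real.log n ≤ (n : ℝ) ^ (ε / (k + 1)) / (ε / (k + 1)) :=
    Real.log_le_rpow_div (by linarith) (by positivity)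
  have h0 : 0 ≤ Real.log (n : ℝ) := Real.log_nonneg hn1
  calc Real.log n ^ (k + 1) ≤ ((n : ℝ) ^ (ε / (k + 1)) / (ε / (k + 1))) ^ (k + 1) :=
        pow_le_pow_left₀ h0 h1 _
    _ = (1 / (ε / (k + 1))) ^ (k + 1) * ((n : ℝ) ^ (ε / (k + 1))) ^ (k + 1) := by
        rw [← mul_pow]
        congr 1
        rw [div_mul_eq_mul_div, one_mul]
    _ = (1 / (ε / (k + 1))) ^ (k + 1) * (n : ℝ) ^ (1 + ε - 1) := by
        congr 1
        rw [← Real.rpow_natCast, ← Real.rpow_mul (by linarith)]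
        congr 1
        push_cast
        field_simp
        ring

theorem sw_term {r : ℕ} (χ : DirichletCharacter ℂ r) (k : ℕ) (σ u : ℝ) {n : ℕ} (hn : n ≠ 0) :
    LSeries.term (swf χ k) ((σ : ℂ) - 2 * Real.pi * u * Complex.I) n =
      swf χ k n * (Real.exp (-(σ * Real.log n)) : ℂ) *
        Complex.exp (2 * Real.pi * Complex.I * u * Real.log n) := by
  have hn0 : (n : ℂ) ≠ 0 := by exact_mod_cast hn
  rw [LSeries.term_of_ne_zero hn, Complex.cpow_def_of_ne_zero hn0, ← Complex.natCast_log,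
    div_eq_mul_inv, ← Complex.exp_neg, mul_assoc (swf χ k n)]
  congr 1
  rw [Complex.ofReal_exp, ← Complex.exp_add]
  congr 1
  push_cast
  ring

theorem sw_repr {r : ℕ} (χ : DirichletCharacter ℂ r) (k : ℕ) (σ lam : ℝ) (hσ : 1 < σ)
    (g : ℝ → ℂ) (hgi : Integrable g) (Φ : ℝ → ℝ)
    (hΦ : ∀ w, ((Φ w : ℝ) : ℂ) = ∫ u, g u * Complex.exp (2 * Real.pi * Complex.I * u * w))
    (N : ℕ) (hN : ∀ n : ℕ, N < n → Φ (Real.log n - lam) = 0) :
    ∑ n ∈ Icc 1 N, swf χ k n * (Real.exp (-(σ * Real.log n)) : ℂ) *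
      ((Φ (Real.log n - lam) : ℝ) : ℂ) =
    ∫ u, g u * Complex.exp (-(2 * Real.pi * Complex.I * u * lam)) *
      Fj χ k ((σ : ℂ) - 2 * Real.pi * u * Complex.I) := by
  set F : ℕ → ℝ → ℂ := fun n u => g u * Complex.exp (-(2 * Real.pi * Complex.I * u * lam)) *
    LSeries.term (swf χ k) ((σ : ℂ) - 2 * Real.pi * u * Complex.I) n with hFdef
  have hexp : ∀ (u v : ℝ), ‖Complex.exp (2 * Real.pi * Complex.I * u * v)‖ = 1 := by
    intro u v
    rw [Complex.norm_exp]
    simp
  have hexp' : ∀ (u v : ℝ), ‖Complex.exp (-(2 * Real.pi * Complex.I * u * v))‖ = 1 := by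
    intro u v
    rw [Complex.norm_exp]
    simp
  have hF0 : ∀ u, F 0 u = 0 := by
    intro u
    rw [hFdef]
    simp only [LSeries.term_zero, mul_zero]
  have hFn : ∀ n : ℕ, n ≠ 0 → ∀ u, F n u = swf χ k n * (Real.exp (-(σ * Real.log n)) : ℂ) *
      (g u * Complex.exp (2 * Real.pi * Complex.I * u * ((Real.log n - lam : ℝ) : ℂ))) := by
    intro n hn u
    rw [hFdef]
    simp only
    rw [sw_term χ k σ u hn]
    have : Complex.exp (2 * Real.pi * Complex.I * u * ((Real.log n - lam : ℝ) : ℂ)) =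
        Complex.exp (2 * Real.pi * Complex.I * u * Real.log n) *
          Complex.exp (-(2 * Real.pi * Complex.I * u * lam)) := by
      rw [← Complex.exp_add]
      congr 1
      push_cast
      ring
    rw [this]
    ring
  have hgint : ∀ v : ℝ, Integrable (fun u : ℝ => g u *
      Complex.exp (2 * Real.pi * Complex.I * u * (v : ℂ))) := by
    intro v
    refine hgi.norm.mono' ?_ (Filter.Eventually.of_forall fun u => ?_)
    · refine hgi.aestronglyMeasurable.mul ?_
      exact (by fun_prop : Continuous (fun u : ℝ =>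
        Complex.exp (2 * Real.pi * Complex.I * u * (v : ℂ)))).aestronglyMeasurable
    · rw [norm_mul, hexp, mul_one]
  have hFint : ∀ n, Integrable (F n) := by
    intro n
    rcases Nat.eq_zero_or_pos n with h | h
    · have : F n = fun _ => 0 := by
        funext u
        rw [h]
        exact hF0 u
      rw [this]
      exact integrable_zero _ _ _
    · have : F n = fun u => swf χ k n * (Real.exp (-(σ * Real.log n)) : ℂ) *
        (g u * Complex.exp (2 * Real.pi * Complex.I * u * ((Real.log n - lam : ℝ) : ℂ))) := by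
        funext u
        exact hFn n (by omega) u
      rw [this]
      exact (hgint _).const_mul _
  have hnorm : ∀ n, (∫ u, ‖F n u‖) = ‖LSeries.term (swf χ k) (σ : ℂ) n‖ * ∫ u, ‖g u‖ := by
    intro n
    rw [← integral_const_mul]
    refine integral_congr_ae (Filter.Eventually.of_forall fun u => ?_)
    rcases Nat.eq_zero_or_pos n with h | h
    · simp only [h, hF0, LSeries.term_zero, norm_zero, zero_mul]
    · simp only
      rw [hFn n (by omega) u, norm_mul, norm_mul, norm_mul, hexp, mul_one]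
      have h2 := sw_term χ k σ 0 (n := n) (by omega)
      simp only [Complex.ofReal_zero, mul_zero, zero_mul, sub_zero, Complex.exp_zero,
        mul_one] at h2
      rw [h2, norm_mul]
  have hsum : Summable (fun n => ∫ u, ‖F n u‖) := by
    simp only [hnorm]
    refine Summable.mul_right _ ?_
    exact (sw_summable χ k (s := (σ : ℂ)) (by simpa using hσ)).norm
  have hHS := hasSum_integral_of_summable_integral_norm hFint hsum
  have hval : ∀ n : ℕ, (∫ u, F n u) = if n ∈ Icc 1 N then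
      swf χ k n * (Real.exp (-(σ * Real.log n)) : ℂ) * ((Φ (Real.log n - lam) : ℝ) : ℂ)
      else 0 := by
    intro n
    rcases Nat.eq_zero_or_pos n with h | h
    · rw [if_neg (by simp [h])]
      simp only [h, hF0, integral_zero]
    · have h1 : (∫ u, F n u) = swf χ k n * (Real.exp (-(σ * Real.log n)) : ℂ) *
          ((Φ (Real.log n - lam) : ℝ) : ℂ) := by
        rw [hΦ, ← integral_const_mul]
        exact integral_congr_ae (Filter.Eventually.of_forall fun u => hFn n (by omega) u)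
      rw [h1]
      split_ifs with h2
      · rfl
      · rw [Finset.mem_Icc, not_and_or] at h2
        rw [hN n (by omega)]
        simp
  have hsum2 : HasSum (fun n => ∫ u, F n u)
      (∑ n ∈ Icc 1 N, swf χ k n * (Real.exp (-(σ * Real.log n)) : ℂ) *
        ((Φ (Real.log n - lam) : ℝ) : ℂ)) := by
    have h1 : ∑ n ∈ Icc 1 N, swf χ k n * (Real.exp (-(σ * Real.log n)) : ℂ) *
        ((Φ (Real.log n - lam) : ℝ) : ℂ) = ∑ n ∈ Icc 1 N, ∫ u, F n u := by
      refine Finset.sum_congr rfl (fun n hn => ?_)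
      rw [hval, if_pos hn]
    rw [h1]
    refine hasSum_sum_of_ne_finset_zero (fun n hn => ?_)
    rw [hval, if_neg hn]
  have heq := hsum2.unique hHS
  rw [heq]
  refine integral_congr_ae (Filter.Eventually.of_forall fun u => ?_)
  show ∑' n, F n u = _
  rw [hFdef]
  simp only
  rw [tsum_mul_left]
  rfl

theorem SW (h1 : S_LBD) (h2 : S_FJ) (h3 : S_SWF) : S_SW := by
  intro A B c hc
  set k : ℕ := 4 * A + 7 with hk
  obtain ⟨cL, xL, hcL, hL⟩ := h1 B
  obtain ⟨CF, hCF, hF⟩ := h2 k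
  obtain ⟨CG, hCG, hG⟩ := h3 k
  obtain ⟨CM, hCM, hM⟩ := sw_log_pow (10 * (k + 1))
  set J : ℝ := ∫ u : ℝ, (1 + u ^ 2) ^ (-(3 / 4) : ℝ) with hJ
  have hJ0 : 0 ≤ J := integral_nonneg fun u => by positivity
  set c' : ℝ := min cL 1 with hc'
  have hc'0 : 0 < c' := lt_min hcL one_pos
  set K0 : ℝ := Real.exp 2 * c * CG * CF * (1 / c') ^ (k + 1) * CM * J with hK0
  have hK00 : 0 ≤ K0 := by positivity
  have hc0 : (0 : ℝ) < c := by exact_mod_cast hc
  have hc1 : (1 : ℝ) ≤ c := by exact_mod_cast hc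
  -- eventual conditions
  have hev : ∀ᶠ y : ℝ in atTop, 4 ≤ y ∧ 1 ≤ Real.log y ∧ Real.log c ≤ y ∧
      K0 * (B * Real.log y + 1) ^ (10 * (k + 1)) ≤ y := by
    have e1 : ∀ᶠ y : ℝ in atTop, 4 ≤ y := eventually_ge_atTop 4
    have e2 : ∀ᶠ y : ℝ in atTop, 1 ≤ Real.log y :=
      Real.tendsto_log_atTop.eventually (eventually_ge_atTop 1)
    have e3 : ∀ᶠ y : ℝ in atTop, Real.log c ≤ y := eventually_ge_atTop _
    have e4 := (Real.isLittleO_pow_log_id_atTop (n := 10 * (k + 1))).bound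
      (show (0 : ℝ) < 1 / ((K0 + 1) * (B + 1) ^ (10 * (k + 1))) by positivity)
    filter_upwards [e1, e2, e3, e4] with y y1 y2 y3 y4
    refine ⟨y1, y2, y3, ?_⟩
    rw [norm_pow, Real.norm_eq_abs, abs_of_nonneg (by linarith), id, Real.norm_eq_abs,
      abs_of_nonneg (by linarith), div_mul_eq_mul_div, one_mul, le_div_iff₀ (by positivity)] at y4
    have y5 : (B : ℝ) * Real.log y + 1 ≤ (B + 1) * Real.log y := by linarith
    have y6 : ((B : ℝ) * Real.log y + 1) ^ (10 * (k + 1)) ≤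
        ((B + 1) * Real.log y) ^ (10 * (k + 1)) := pow_le_pow_left₀ (by positivity) y5 _
    calc K0 * (B * Real.log y + 1) ^ (10 * (k + 1))
        ≤ (K0 + 1) * ((B + 1) * Real.log y) ^ (10 * (k + 1)) :=
          mul_le_mul (by linarith) y6 (by positivity) (by positivity)
      _ = Real.log y ^ (10 * (k + 1)) * ((K0 + 1) * (B + 1) ^ (10 * (k + 1))) := by
          rw [mul_pow]; ring
      _ ≤ y := y4
  obtain ⟨x1, hx1⟩ := Filter.eventually_atTop.1
    (((Real.tendsto_log_atTop.eventually hev).and (eventually_ge_atTop xL)).and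
      (eventually_ge_atTop 1))
  refine ⟨x1, fun x hx hgood r hr hrB χ hprim hχ1 => ?_⟩
  obtain ⟨⟨⟨hy4, hly, hcy, hfin⟩, hxL⟩, hx1'⟩ := hx1 x hx
  set y : ℝ := Real.log x with hy
  have hy0 : 0 < y := by linarith
  have hx0 : 0 < x := by linarith
  set X : ℝ := c * x with hX
  have hX0 : 0 < X := by positivity
  set lam : ℝ := Real.log X with hlam
  have hlamy : lam = Real.log c + y := by rw [hlam, hX, Real.log_mul hc0.ne' hx0.ne']
  have hlc : 0 ≤ Real.log (c : ℝ) := Real.log_nonneg hc1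
  have hlam1 : y ≤ lam := by linarith
  have hlam4 : 4 ≤ lam := by linarith
  set σ : ℝ := 1 + 1 / y with hσ
  have hσ1 : 1 < σ := by
    rw [hσ]
    have : 0 < 1 / y := by positivity
    linarith
  have hσ2 : σ ≤ 2 := by
    rw [hσ]
    have : 1 / y ≤ 1 := by
      rw [div_le_one hy0]; linarith
    linarith
  obtain ⟨g, hgc, hgb, hgΦ⟩ := hG lam σ hlam4 hσ1.le hσ2
  have hgi : Integrable g := sw_int_g hgc hgb
  set Φ : ℝ → ℝ := fun w => rho w * Real.exp (σ * w) / (1 + w / lam) ^ k with hΦ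
  have hlam0 : 0 < lam := by linarith
  -- the support
  have hN : ∀ n : ℕ, ⌊8 * X⌋₊ < n → Φ (Real.log n - lam) = 0 := by
    intro n hn
    have h4 : 8 * X < n := Nat.lt_of_floor_lt hn
    have h5 : Real.log (8 * X) ≤ Real.log n := Real.log_le_log (by positivity) h4.le
    rw [Real.log_mul (by norm_num) hX0.ne'] at h5
    have h6 : (2 : ℝ) ≤ Real.log 8 := by
      rw [show (8 : ℝ) = 2 ^ 3 by norm_num, Real.log_pow]
      have := Real.log_two_gt_d9
      push_cast
      linarith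
    have h7 : rho (Real.log n - lam) = 0 := by
      apply rho_zero
      rw [abs_of_nonneg (by linarith)]
      linarith
    rw [hΦ]
    simp only
    rw [h7]
    simp
  have hrepr := sw_repr χ k σ lam hσ1 g hgi Φ (fun w => hgΦ w) ⌊8 * X⌋₊ hN
  -- the prime sum
  have hpsi : psiR X χ = ((Real.exp (σ * lam) * (lam ^ k)⁻¹ : ℝ) : ℂ) *
      ∑ n ∈ Icc 1 ⌊8 * X⌋₊, swf χ k n * (Real.exp (-(σ * Real.log n)) : ℂ) *
        ((Φ (Real.log n - lam) : ℝ) : ℂ) := by
    unfold psiR
    rw [Finset.mul_sum]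
    refine Finset.sum_congr rfl (fun n hn => ?_)
    rw [Finset.mem_Icc] at hn
    have hn0 : (0 : ℝ) < n := by exact_mod_cast hn.1
    have hlog : Real.log (n / X) = Real.log n - lam := by
      rw [Real.log_div hn0.ne' hX0.ne']
    rw [hlog]
    by_cases hw : rho (Real.log n - lam) = 0
    · rw [hΦ]
      simp only
      rw [hw]
      simp
    · have hw2 : |Real.log n - lam| < 2 := by
        by_contra h
        exact hw (rho_zero (not_lt.1 h))
      have hln : Real.log n ≠ 0 := by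
        intro h
        rw [h, zero_sub, abs_neg, abs_of_pos hlam0] at hw2
        linarith
      have e1 : 1 + (Real.log n - lam) / lam = Real.log n / lam := by
        field_simp
        ring
      have e2 : Φ (Real.log n - lam) = rho (Real.log n - lam) *
          Real.exp (σ * (Real.log n - lam)) / (Real.log n / lam) ^ k := by
        rw [hΦ]
        simp only
        rw [e1]
      have e3 : rho (Real.log n - lam) = Real.exp (σ * lam) * (lam ^ k)⁻¹ *
          (Real.log n ^ k * (Real.exp (-(σ * Real.log n)) * Φ (Real.log n - lam))) := by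
        rw [e2, mul_sub, Real.exp_sub, Real.exp_neg, div_pow]
        have := Real.exp_pos (σ * lam)
        have := Real.exp_pos (σ * Real.log n)
        field_simp
      unfold swf
      have e4 : ((rho (Real.log n - lam) : ℝ) : ℂ) = ((Real.exp (σ * lam) * (lam ^ k)⁻¹ : ℝ) : ℂ) *
          ((Real.log n : ℂ) ^ k * ((Real.exp (-(σ * Real.log n)) : ℂ) *
            ((Φ (Real.log n - lam) : ℝ) : ℂ))) := by
        have := congrArg (fun z : ℝ => (z : ℂ)) e3
        rw [this]
        push_cast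
        ring
      rw [e4]
      ring
  rw [hpsi, hrepr, norm_mul, Complex.norm_real, Real.norm_eq_abs, abs_of_pos (by positivity)]
  -- the bound of the integrand
  set D : ℝ := CG * CF * (1 / c') ^ (k + 1) * CM * (B * Real.log y + 1) ^ (10 * (k + 1)) *
    y ^ (A + 2) with hD
  have hB1 : 1 ≤ (B : ℝ) * Real.log y + 1 := by
    have : 0 ≤ (B : ℝ) * Real.log y := by positivity
    linarith
  have hptw : ∀ u : ℝ, ‖g u * Complex.exp (-(2 * Real.pi * Complex.I * u * lam)) *
      Fj χ k ((σ : ℂ) - 2 * Real.pi * u * Complex.I)‖ ≤ D * (1 + u ^ 2) ^ (-(3 / 4) : ℝ) := by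
    intro u
    set t : ℝ := -(2 * Real.pi * u) with ht
    have hs : ((σ : ℂ) - 2 * Real.pi * u * Complex.I) = ((1 + 1 / Real.log x : ℝ) : ℂ) +
        (t : ℂ) * Complex.I := by
      rw [hσ, ht]
      push_cast
      ring
    have hre : (((1 + 1 / Real.log x : ℝ) : ℂ) + (t : ℂ) * Complex.I).re = σ := by
      simp [hσ, hy]
    have him : (((1 + 1 / Real.log x : ℝ) : ℂ) + (t : ℂ) * Complex.I).im = t := by
      simp
    have hLLpos : ∀ r : ℕ, 1 ≤ r → 1 ≤ LL r t := by
      intro r hr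
      unfold LL
      have hr' : (1 : ℝ) ≤ r := by exact_mod_cast hr
      have h3 : Real.exp 1 ≤ r * (|t| + 3) := by
        have := Real.exp_one_lt_d9
        have := abs_nonneg t
        nlinarith
      calc (1 : ℝ) = Real.log (Real.exp 1) := (Real.log_exp 1).symm
        _ ≤ _ := Real.log_le_log (Real.exp_pos 1) h3
    have hr1 : 1 ≤ r := Nat.one_le_iff_ne_zero.2 (NeZero.ne r)
    have hLL1 : 1 ≤ LL r t := hLLpos r hr1
    have hLL0 : 0 < LL r t := by linarith
    set δ : ℝ := c' * y ^ (-(1 / 4) : ℝ) / (LL r t) ^ 8 with hδ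
    have hyq : y ^ (-(1 / 4) : ℝ) ≤ 1 := by
      refine Real.rpow_le_one_of_one_le_of_nonpos (by linarith) (by norm_num)
    have hyq0 : 0 < y ^ (-(1 / 4) : ℝ) := by positivity
    have hδ0 : 0 < δ := by positivity
    have hδ1 : δ ≤ 1 := by
      rw [hδ, div_le_one (by positivity)]
      have h5 : 1 ≤ (LL r t) ^ 8 := one_le_pow₀ hLL1
      have h6 : c' ≤ 1 := min_le_right _ _
      have h7 : c' * y ^ (-(1 / 4) : ℝ) ≤ 1 * 1 := mul_le_mul h6 hyq hyq0.le zero_le_one
      linarith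
    have hδL : δ ≤ ‖Lj χ 0 (((1 + 1 / Real.log x : ℝ) : ℂ) + (t : ℂ) * Complex.I)‖ := by
      refine le_trans ?_ (hL x hxL hgood r hrB χ hprim hχ1 t)
      rw [hδ]
      refine div_le_div_of_nonneg_right ?_ (by positivity)
      exact mul_le_mul_of_nonneg_right (min_le_left _ _) hyq0.le
    have hFb := hF r χ hχ1 (((1 + 1 / Real.log x : ℝ) : ℂ) + (t : ℂ) * Complex.I) δ
      (by rw [hre]; exact hσ1) (by rw [hre]; exact hσ2) hδ0 hδ1 hδL
    rw [him] at hFb
    have hq : (LL r t) ^ 2 / δ = (1 / c') * (LL r t) ^ 10 * y ^ (1 / 4 : ℝ) := by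
      rw [hδ, Real.rpow_neg hy0.le]
      field_simp
    have hyk : (y ^ (1 / 4 : ℝ)) ^ (k + 1) = y ^ (A + 2) := by
      rw [← Real.rpow_natCast, ← Real.rpow_mul hy0.le, ← Real.rpow_natCast]
      congr 1
      rw [hk]
      push_cast
      ring
    have hLLb : LL r t ≤ (B * Real.log y + 1) * Real.log (|2 * Real.pi * u| + 3) := by
      unfold LL
      have hr0' : (0 : ℝ) < r := by exact_mod_cast hr1
      have ht' : |t| = |2 * Real.pi * u| := by rw [ht, abs_neg]
      have h3pos : (0 : ℝ) < |2 * Real.pi * u| + 3 := by positivity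
      rw [ht', Real.log_mul hr0'.ne' h3pos.ne']
      have h5 : Real.log r ≤ B * Real.log y := by
        calc Real.log r ≤ Real.log (y ^ B) := Real.log_le_log hr0' hrB
          _ = B * Real.log y := Real.log_pow _ _
      have h6 : 1 ≤ Real.log (|2 * Real.pi * u| + 3) := by
        have := hLLpos 1 le_rfl
        unfold LL at this
        rw [ht'] at this
        simpa using this
      have h7 : 0 ≤ (B : ℝ) * Real.log y := by positivity
      nlinarith
    have hlog0 : 0 ≤ Real.log (|2 * Real.pi * u| + 3) := by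
      apply Real.log_nonneg
      have := abs_nonneg (2 * Real.pi * u)
      linarith
    have hLL10 : ((LL r t) ^ 10) ^ (k + 1) ≤ (B * Real.log y + 1) ^ (10 * (k + 1)) *
        (CM * (1 + u ^ 2) ^ (1 / 4 : ℝ)) := by
      rw [← pow_mul]
      calc (LL r t) ^ (10 * (k + 1)) ≤ ((B * Real.log y + 1) *
            Real.log (|2 * Real.pi * u| + 3)) ^ (10 * (k + 1)) :=
            pow_le_pow_left₀ hLL0.le hLLb _
        _ = (B * Real.log y + 1) ^ (10 * (k + 1)) *
            (Real.log (|2 * Real.pi * u| + 3)) ^ (10 * (k + 1)) := mul_pow _ _ _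
        _ ≤ _ := mul_le_mul_of_nonneg_left (hM u) (by positivity)
    have hFb2 : ‖Fj χ k (((1 + 1 / Real.log x : ℝ) : ℂ) + (t : ℂ) * Complex.I)‖ ≤
        CF * ((1 / c') ^ (k + 1) * ((B * Real.log y + 1) ^ (10 * (k + 1)) *
        (CM * (1 + u ^ 2) ^ (1 / 4 : ℝ))) * y ^ (A + 2)) := by
      refine hFb.trans (mul_le_mul_of_nonneg_left ?_ hCF.le)
      rw [hq, mul_pow, mul_pow, hyk]
      refine mul_le_mul_of_nonneg_right ?_ (by positivity)
      exact mul_le_mul_of_nonneg_left hLL10 (by positivity)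
    have hexp' : ‖Complex.exp (-(2 * Real.pi * Complex.I * u * lam))‖ = 1 := by
      rw [Complex.norm_exp]
      simp
    rw [norm_mul, norm_mul, hexp', mul_one, hs]
    have hu1 : (0 : ℝ) < 1 + u ^ 2 := by positivity
    calc ‖g u‖ * ‖Fj χ k (((1 + 1 / Real.log x : ℝ) : ℂ) + (t : ℂ) * Complex.I)‖
        ≤ (CG / (1 + u ^ 2)) * (CF * ((1 / c') ^ (k + 1) *
          ((B * Real.log y + 1) ^ (10 * (k + 1)) *
          (CM * (1 + u ^ 2) ^ (1 / 4 : ℝ))) * y ^ (A + 2))) :=
          mul_le_mul (hgb u) hFb2 (norm_nonneg _) (by positivity)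
      _ = D * ((1 + u ^ 2) ^ (1 / 4 : ℝ) / (1 + u ^ 2)) := by
          rw [hD]
          ring
      _ = D * (1 + u ^ 2) ^ (-(3 / 4) : ℝ) := by
          congr 1
          rw [div_eq_mul_inv, ← Real.rpow_neg_one (1 + u ^ 2), ← Real.rpow_add hu1]
          norm_num
  have hint := norm_integral_le_of_norm_le (sw_integrable.const_mul D)
    (Filter.Eventually.of_forall hptw)
  rw [integral_const_mul, ← hJ] at hint
  -- the final estimate
  have hexpb : Real.exp (σ * lam) ≤ Real.exp 2 * X := by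
    have e1 : σ * lam = lam + lam / y := by
      rw [hσ]
      field_simp
    have e2 : lam / y ≤ 2 := by
      rw [div_le_iff₀ hy0]
      linarith
    rw [e1, Real.exp_add, hlam, Real.exp_log hX0, mul_comm]
    exact mul_le_mul_of_nonneg_right (Real.exp_le_exp.2 e2) hX0.le
  have hlamk : (lam ^ k)⁻¹ ≤ (y ^ k)⁻¹ := inv_anti₀ (by positivity)
    (pow_le_pow_left₀ hy0.le hlam1 k)
  have hDJ : 0 ≤ D * J := by positivity
  calc Real.exp (σ * lam) * (lam ^ k)⁻¹ * ‖∫ u, g u *
        Complex.exp (-(2 * Real.pi * Complex.I * u * lam)) *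
        Fj χ k ((σ : ℂ) - 2 * Real.pi * u * Complex.I)‖
      ≤ (Real.exp 2 * X) * (y ^ k)⁻¹ * (D * J) :=
        mul_le_mul (mul_le_mul hexpb hlamk (by positivity) (by positivity)) hint
          (norm_nonneg _) (by positivity)
    _ = x * (y ^ k)⁻¹ * y ^ (A + 2) * (K0 * (B * Real.log y + 1) ^ (10 * (k + 1))) := by
        rw [hD, hK0, hX]
        ring
    _ ≤ x * (y ^ k)⁻¹ * y ^ (A + 2) * y := mul_le_mul_of_nonneg_left hfin (by positivity)
    _ ≤ x / y ^ A := by
        rw [div_eq_mul_inv, mul_assoc, mul_assoc, ← pow_succ]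
        refine mul_le_mul_of_nonneg_left ?_ hx0.le
        have hyk : y ^ k = y ^ (A + 2 + 1) * y ^ (3 * A + 4) := by
          rw [← pow_add]
          congr 1
          rw [hk]
          ring
        rw [hyk, mul_inv, mul_comm, ← mul_assoc, mul_inv_cancel₀ (by positivity), one_mul]
        refine inv_anti₀ (by positivity) ?_
        exact pow_le_pow_right₀ (by linarith) (by omega)

end MTA
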